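import Mathlib
import Pool.Agent.L0h44.LC.Stm2
import Pool.Agent.Helper133.BULib

set_option autoImplicit false

/-!
# Project LC, module INJ: simplicial cocycles are coboundaries if Alexander-Spanier cocycles are
-/

namespace Pool.Agent.L0h72.LC.Inj

open Finset Pool.Agent.H933R3 Pool.Agent.L0h44.LC Pool.Agent.Helper965_Rud
open Pool.Agent.Helper133.BU (Chain cone bd bdL sub S Good)

/-- evaluation of cochains -/
noncomputable def evl {V : Type} (f : List V → ZMod 2) : Chain V →ₗ[ZMod 2] ZMod 2 :=
  Finsupp.linearCombination (ZMod 2) f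

theorem evl_single {V : Type} (f : List V → ZMod 2) (l : List V) : evl f (Finsupp.single l 1) = f l := by
  simp [evl]

theorem evl_cone {V : Type} (f : List V → ZMod 2) (x : V) (c : Chain V) :
    evl f (cone x c) = evl (fun l => f (x :: l)) c := by
  induction c using Finsupp.induction_linear with
  | zero => simp
  | add f g hf hg => simp only [map_add, hf, hg]
  | single l a => rw [Pool.Agent.Helper133.BU.cone_single]; simp [evl]

theorem evl_bdL {V : Type} (f : List V → ZMod 2) (l : List V) : evl f (bdL l) = AS.d f l := by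
  induction l generalizing f with
  | nil => simp [bdL]
  | cons x l ih => rw [bdL, map_add, evl_single, evl_cone, ih, AS.d_cons, CharTwo.sub_eq_add]

theorem evl_d {V : Type} (f : List V → ZMod 2) (c : Chain V) : evl (AS.d f) c = evl f (bd c) := by
  induction c using Finsupp.induction_linear with
  | zero => simp
  | add f g hf hg => simp only [map_add, hf, hg]
  | single l a => rw [Pool.Agent.Helper133.BU.bd_single, map_smul, evl_bdL]; simp [evl]

theorem evl_congr {V : Type} {f g : List V → ZMod 2} (P : List V → Prop) (h : ∀ l, P l → f l = g l) {c : Chain V}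
    (hc : c ∈ S P) : evl f c = evl g c := by
  have := Pool.Agent.Helper133.BU.lin_eq_zero (evl f - evl g) (P := P)
    (fun l hl => by simp only [LinearMap.sub_apply, evl_single]; rw [h l hl, sub_self]) hc
  rw [LinearMap.sub_apply] at this
  exact sub_eq_zero.1 this

theorem evl_smul {V : Type} (a : ZMod 2) (f : List V → ZMod 2) (c : Chain V) :
    evl (fun l => a * f l) c = a * evl f c := by
  induction c using Finsupp.induction_linear with
  | zero => simp
  | add f g hf hg => simp only [map_add, hf, hg]; ring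
  | single l b => simp [evl]; ring

theorem evl_zero {V : Type} (c : Chain V) : evl (fun _ => (0 : ZMod 2)) c = 0 := by
  induction c using Finsupp.induction_linear with
  | zero => simp
  | add f g hf hg => simp only [map_add, hf, hg]; ring
  | single l b => simp [evl]

section real

variable {n : ℕ}

/-- an index with maximal coordinate -/
noncomputable def sx [Nonempty (Fin n)] (x : Fin n → ℝ) : Fin n := (Finite.exists_max x).choose

theorem sx_max [Nonempty (Fin n)] (x : Fin n → ℝ) (i : Fin n) : x i ≤ x (sx x) :=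
  (Finite.exists_max x).choose_spec i

theorem n_pos [Nonempty (Fin n)] : (0 : ℝ) < n := by
  have : 0 < n := Fin.pos_iff_nonempty.2 inferInstance
  exact_mod_cast this

theorem sx_ge [Nonempty (Fin n)] (x : Fin n → ℝ) (h : ∑ i, x i = 1) : 1 / (n : ℝ) ≤ x (sx x) := by
  have h1 : ∑ i, x i ≤ ∑ _i : Fin n, x (sx x) := Finset.sum_le_sum (fun i _ => sx_max x i)
  rw [h, Finset.sum_const, Finset.card_univ, Fintype.card_fin, nsmul_eq_mul] at h1
  rw [div_le_iff₀ n_pos]
  linarith [mul_comm (n : ℝ) (x (sx x))]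

theorem sx_pos [Nonempty (Fin n)] (x : Fin n → ℝ) (h : ∑ i, x i = 1) : x (sx x) ≠ 0 := by
  have h1 := sx_ge x h
  have h2 : (0 : ℝ) < 1 / n := by have := n_pos (n := n); positivity
  exact (h2.trans_le h1).ne'

theorem close [Nonempty (Fin n)] (x y : Fin n → ℝ) (h : ∑ i, x i = 1) (hd : dist x y < 1 / n) : y (sx x) ≠ 0 := by
  have h1 := sx_ge x h
  have h2 : dist (x (sx x)) (y (sx x)) < 1 / n := (dist_le_pi_dist x y (sx x)).trans_lt hd
  rw [Real.dist_eq, abs_lt] at h2
  have : 0 < y (sx x) := by linarith [h2.2]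
  exact this.ne'

/-- the closed simplex -/
def Cx (A : Finset (Fin n)) : Set (Fin n → ℝ) := {x | (∀ i, 0 ≤ x i) ∧ ∑ i, x i = 1 ∧ ∀ i, i ∉ A → x i = 0}

theorem Cx_convex (A : Finset (Fin n)) : Convex ℝ (Cx A) := by
  intro x hx y hy a b ha hb hab
  refine ⟨fun i => ?_, ?_, fun i hi => ?_⟩
  · have h1 := mul_nonneg ha (hx.1 i)
    have h2 := mul_nonneg hb (hy.1 i)
    simp only [Pi.add_apply, Pi.smul_apply, smul_eq_mul]
    linarith
  · simp only [Pi.add_apply, Pi.smul_apply, smul_eq_mul, Finset.sum_add_distrib, ← Finset.mul_sum]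
    rw [hx.2.1, hy.2.1]
    linarith
  · simp [hx.2.2 i hi, hy.2.2 i hi]

theorem Cx_real {K : Finset (Finset (Fin n))} {A : Finset (Fin n)} (hA : A ∈ K) : Cx A ⊆ realization K :=
  fun _ hx => ⟨hx.1, hx.2.1, A, hA, hx.2.2⟩

theorem sx_mem [Nonempty (Fin n)] {A : Finset (Fin n)} {x : Fin n → ℝ} (hx : x ∈ Cx A) : sx x ∈ A := by
  by_contra h
  exact sx_pos x hx.2.1 (hx.2.2 _ h)

/-- the unit vectors -/
def E (i : Fin n) : Fin n → ℝ := Pi.single i 1

theorem E_mem {A : Finset (Fin n)} {i : Fin n} (hi : i ∈ A) : E i ∈ Cx A := by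
  refine ⟨fun j => ?_, ?_, fun j hj => ?_⟩
  · by_cases h : j = i
    · subst h; simp [E]
    · simp [E, h]
  · simp [E, Finset.sum_pi_single']
  · have : j ≠ i := by rintro rfl; exact hj hi
    simp [E, this]

theorem sx_E [Nonempty (Fin n)] (i : Fin n) : sx (E i) = i := by
  have := sx_mem (E_mem (A := {i}) (Finset.mem_singleton_self i))
  exact Finset.mem_singleton.1 this

theorem E_dist (i j : Fin n) : ‖E i - E j‖ ≤ 1 := by
  rw [pi_norm_le_iff_of_nonneg zero_le_one]
  intro k
  simp only [E, Pi.sub_apply, Pi.single_apply, Real.norm_eq_abs]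
  split_ifs <;> simp

theorem E_good {A : Finset (Fin n)} (l : List (Fin n)) (hl : ∀ i ∈ l, i ∈ A) :
    Good l.length 1 (Cx A) (l.map E) := by
  refine ⟨by simp, ?_, ?_⟩
  · intro u hu
    obtain ⟨i, hi, rfl⟩ := List.mem_map.1 hu
    exact E_mem (hl i hi)
  · intro u hu v hv
    obtain ⟨i, hi, rfl⟩ := List.mem_map.1 hu
    obtain ⟨j, hj, rfl⟩ := List.mem_map.1 hv
    exact E_dist i j

theorem iter_good {A : Finset (Fin n)} (l : List (Fin n)) (hl : ∀ i ∈ l, i ∈ A) (m : ℕ) :
    (sub l.length)^[m] (Finsupp.single (l.map E) 1) ∈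
      S (Good l.length (((l.length : ℝ) / (l.length + 1)) ^ m * 1) (Cx A)) :=
  Pool.Agent.Helper133.BU.sub_iter_good _ _ _ zero_le_one _ (Cx_convex A) _
    (Pool.Agent.Helper133.BU.single_mem_S (E_good l hl) 1)

/-- the simplicial cochain on lists -/
def zt (z : Finset (Fin n) → ZMod 2) (l : List (Fin n)) : ZMod 2 :=
  if l.length = 3 ∧ l.Nodup then z l.toFinset else 0

theorem zt_perm (z : Finset (Fin n) → ZMod 2) {l l' : List (Fin n)} (h : l.Perm l') : zt z l = zt z l' := by
  have h1 : (l.length = 3 ∧ l.Nodup) ↔ (l'.length = 3 ∧ l'.Nodup) := by rw [h.length_eq, h.nodup_iff]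
  unfold zt
  rw [List.toFinset_eq_of_perm _ _ h]
  exact if_congr h1 rfl rfl

theorem zt_not (z : Finset (Fin n) → ZMod 2) {l : List (Fin n)} (h : ¬ l.Nodup) : zt z l = 0 := if_neg (fun h' => h h'.2)

theorem sum_face (f : Finset (Fin n) → ZMod 2) (A : Finset (Fin n)) (k : ℕ) (hA : A.card = k + 1) :
    ∑ B ∈ A.powersetCard k, f B = ∑ x ∈ A, f (A.erase x) := by
  have h : A.powersetCard k = A.image (fun x => A.erase x) := by
    ext B
    rw [Finset.mem_powersetCard, Finset.mem_image]
    constructor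
    · rintro ⟨h1, h2⟩
      obtain ⟨x, hx, hxB⟩ : ∃ x ∈ A, x ∉ B := by
        by_contra hc
        push Not at hc
        have := Finset.card_le_card (show A ⊆ B from hc)
        omega
      refine ⟨x, hx, ?_⟩
      refine (Finset.eq_of_subset_of_card_le (fun y hy => Finset.mem_erase.2 ⟨?_, h1 hy⟩) ?_).symm
      · rintro rfl; exact hxB hy
      · rw [Finset.card_erase_of_mem hx]; omega
    · rintro ⟨x, hx, rfl⟩
      exact ⟨Finset.erase_subset _ _, by rw [Finset.card_erase_of_mem hx]; omega⟩
  rw [h, Finset.sum_image]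
  intro x hx y hy hxy
  by_contra hne
  have : x ∈ A.erase y := Finset.mem_erase.2 ⟨hne, hx⟩
  rw [show A.erase y = A.erase x from hxy.symm] at this
  exact (Finset.notMem_erase x A) this

theorem d_four (f : List (Fin n) → ZMod 2) (a b c e : Fin n) :
    AS.d f [a, b, c, e] = f [b, c, e] + f [a, c, e] + f [a, b, e] + f [a, b, c] := by
  simp only [AS.d_cons, AS.d_nil, CharTwo.sub_eq_add]
  ring

theorem d_three (f : List (Fin n) → ZMod 2) (a b c : Fin n) :
    AS.d f [a, b, c] = f [b, c] + f [a, c] + f [a, b] := by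
  simp only [AS.d_cons, AS.d_nil, CharTwo.sub_eq_add]
  ring

theorem d_two (f : List (Fin n) → ZMod 2) (a b : Fin n) :
    AS.d f [a, b] = f [b] + f [a] := by
  simp only [AS.d_cons, AS.d_nil, CharTwo.sub_eq_add]
  ring

theorem zt_coc {K : Finset (Finset (Fin n))} (z : Finset (Fin n) → ZMod 2)
    (hz : ∀ S ∈ K, S.card = 4 → ∑ A ∈ S.powersetCard 3, z A = 0) (l : List (Fin n)) (hl : l.length = 4)
    (hK : l.toFinset ∈ K) : AS.d (zt z) l = 0 := by
  obtain ⟨a, b, c, e, rfl⟩ : ∃ a b c e, l = [a, b, c, e] := by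
    match l, hl with
    | [a, b, c, e], _ => exact ⟨a, b, c, e, rfl⟩
  rw [d_four]
  by_cases hab : a = b
  · subst hab
    rw [zt_not z (l := [a, a, e]) (by simp), zt_not z (l := [a, a, c]) (by simp), add_zero, add_zero,
      CharTwo.add_self_eq_zero]
  by_cases hac : a = c
  · subst hac
    rw [zt_not z (l := [a, a, e]) (by simp), zt_not z (l := [a, b, a]) (by simp), add_zero, add_zero,
      zt_perm z (List.Perm.swap b a [e]), CharTwo.add_self_eq_zero]
  by_cases hae : a = e
  · subst hae
    have : [b, c, a].Perm [a, b, c] := (List.perm_append_comm (l₁ := [b, c]) (l₂ := [a]))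
    rw [zt_not z (l := [a, c, a]) (by simp), zt_not z (l := [a, b, a]) (by simp), add_zero, add_zero,
      zt_perm z this, CharTwo.add_self_eq_zero]
  by_cases hbc : b = c
  · subst hbc
    rw [zt_not z (l := [b, b, e]) (by simp), zt_not z (l := [a, b, b]) (by simp), add_zero, zero_add,
      CharTwo.add_self_eq_zero]
  by_cases hbe : b = e
  · subst hbe
    have : [a, c, b].Perm [a, b, c] := List.Perm.cons a (List.Perm.swap b c [])
    rw [zt_not z (l := [b, c, b]) (by simp), zt_not z (l := [a, b, b]) (by simp), add_zero, zero_add,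
      zt_perm z this, CharTwo.add_self_eq_zero]
  by_cases hce : c = e
  · subst hce
    rw [zt_not z (l := [b, c, c]) (by simp), zt_not z (l := [a, c, c]) (by simp), add_zero, zero_add,
      CharTwo.add_self_eq_zero]
  have hs : [a, b, c, e].toFinset = {a, b, c, e} := by simp
  rw [hs] at hK
  have hcard : ({a, b, c, e} : Finset (Fin n)).card = 4 := by
    rw [Finset.card_insert_of_notMem (by simp [hab, hac, hae]), Finset.card_insert_of_notMem (by simp [hbc, hbe]),
      Finset.card_insert_of_notMem (by simp [hce]), Finset.card_singleton]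
  have h := hz _ hK hcard
  rw [sum_face z _ 3 hcard, Finset.sum_insert (by simp [hab, hac, hae]), Finset.sum_insert (by simp [hbc, hbe]),
    Finset.sum_insert (by simp [hce]), Finset.sum_singleton] at h
  have e1 : ({a, b, c, e} : Finset (Fin n)).erase a = {b, c, e} := by
    rw [Finset.erase_insert (by simp [hab, hac, hae])]
  have e2 : ({a, b, c, e} : Finset (Fin n)).erase b = {a, c, e} := by
    ext i; simp only [Finset.mem_erase, Finset.mem_insert, Finset.mem_singleton]; grind
  have e3 : ({a, b, c, e} : Finset (Fin n)).erase c = {a, b, e} := by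
    ext i; simp only [Finset.mem_erase, Finset.mem_insert, Finset.mem_singleton]; grind
  have e4 : ({a, b, c, e} : Finset (Fin n)).erase e = {a, b, c} := by
    ext i; simp only [Finset.mem_erase, Finset.mem_insert, Finset.mem_singleton]; grind
  rw [e1, e2, e3, e4] at h
  have f1 : zt z [b, c, e] = z {b, c, e} := by simp [zt, hbc, hbe, hce]
  have f2 : zt z [a, c, e] = z {a, c, e} := by simp [zt, hac, hae, hce]
  have f3 : zt z [a, b, e] = z {a, b, e} := by simp [zt, hab, hae, hbe]
  have f4 : zt z [a, b, c] = z {a, b, c} := by simp [zt, hab, hac, hbc]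
  rw [f1, f2, f3, f4, ← h]
  ring

/-- the cochain of an edge -/
def wpq (p q : Fin n) (l : List (Fin n)) : ZMod 2 := if l = [p, q] ∨ l = [q, p] then 1 else 0

/-- the cochain of a vertex -/
def onep (p : Fin n) (l : List (Fin n)) : ZMod 2 := if l = [p] then 1 else 0

theorem zt_eq (z : Finset (Fin n) → ZMod 2) {p q r : Fin n} (hpq : p ≠ q) (hpr : p ≠ r) (hqr : q ≠ r)
    (l : List (Fin n)) (hl : l.length = 3) (hA : ∀ i ∈ l, i ∈ ({p, q, r} : Finset (Fin n))) :
    zt z l = z {p, q, r} * AS.d (wpq p q) l := by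
  obtain ⟨a, b, c, rfl⟩ : ∃ a b c, l = [a, b, c] := by
    match l, hl with
    | [a, b, c], _ => exact ⟨a, b, c, rfl⟩
  rw [d_three]
  have ha := hA a (by simp)
  have hb := hA b (by simp)
  have hc := hA c (by simp)
  by_cases hnd : [a, b, c].Nodup
  · have h1 : ({a, b, c} : Finset (Fin n)) = {p, q, r} := by
      apply Finset.eq_of_subset_of_card_le
      · intro i hi
        simp only [Finset.mem_insert, Finset.mem_singleton] at hi
        rcases hi with rfl | rfl | rfl <;> assumption
      · have h2 : ({a, b, c} : Finset (Fin n)).card = 3 := by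
          have := List.toFinset_card_of_nodup hnd
          simpa using this
        rw [h2]
        exact Finset.card_le_three
    have h3 : zt z [a, b, c] = z {p, q, r} := by
      rw [zt, if_pos ⟨rfl, hnd⟩, ← h1]
      simp
    rw [h3]
    simp only [List.nodup_cons, List.mem_cons, not_or, List.not_mem_nil, not_false_iff, and_true,
      List.nodup_nil] at hnd
    obtain ⟨⟨hab, hac⟩, hbc⟩ := hnd
    simp only [Finset.mem_insert, Finset.mem_singleton] at ha hb hc
    have hw : wpq p q [b, c] + wpq p q [a, c] + wpq p q [a, b] = 1 := by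
      unfold wpq
      rcases ha with rfl | rfl | rfl <;> rcases hb with rfl | rfl | rfl <;> rcases hc with rfl | rfl | rfl <;>
        simp_all [Ne.symm]
    rw [hw, mul_one]
  · rw [zt_not z hnd]
    have hw : wpq p q [b, c] + wpq p q [a, c] + wpq p q [a, b] = 0 := by
      have h0 : ∀ i, wpq p q [i, i] = 0 := by
        intro i
        unfold wpq
        rw [if_neg]
        simp only [List.cons.injEq, and_true, not_or, not_and]
        exact ⟨fun h1 h2 => hpq (h1.symm.trans h2), fun h1 h2 => hpq (h2.symm.trans h1)⟩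
      have hsym : ∀ i j, wpq p q [i, j] = wpq p q [j, i] := by
        intro i j
        unfold wpq
        apply if_congr _ rfl rfl
        simp only [List.cons.injEq, and_true]
        tauto
      by_cases hab : a = b
      · subst hab
        rw [h0, add_zero, CharTwo.add_self_eq_zero]
      by_cases hac : a = c
      · subst hac
        rw [h0, add_zero, hsym b a, CharTwo.add_self_eq_zero]
      by_cases hbc : b = c
      · subst hbc
        rw [h0, zero_add, CharTwo.add_self_eq_zero]
      exfalso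
      apply hnd
      simp [hab, hac, hbc]
    rw [hw, mul_zero]

theorem wpq_two {p q : Fin n} (hpq : p ≠ q) (l : List (Fin n)) (hl : l.length = 2)
    (hA : ∀ i ∈ l, i ∈ ({p, q} : Finset (Fin n))) : wpq p q l = AS.d (onep p) l := by
  obtain ⟨a, b, rfl⟩ : ∃ a b, l = [a, b] := by
    match l, hl with
    | [a, b], _ => exact ⟨a, b, rfl⟩
  rw [d_two]
  have ha := hA a (by simp)
  have hb := hA b (by simp)
  simp only [Finset.mem_insert, Finset.mem_singleton] at ha hb
  unfold wpq onep
  rcases ha with rfl | rfl <;> rcases hb with rfl | rfl <;> simp [hpq, hpq.symm, CharTwo.add_self_eq_zero]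

theorem wpq_zero {p q : Fin n} {A : Finset (Fin n)} (hA : p ∉ A ∨ q ∉ A) (l : List (Fin n))
    (hl : ∀ i ∈ l, i ∈ A) : wpq p q l = 0 := by
  unfold wpq
  rw [if_neg]
  rintro (rfl | rfl)
  · rcases hA with h | h
    · exact h (hl p (by simp))
    · exact h (hl q (by simp))
  · rcases hA with h | h
    · exact h (hl p (by simp))
    · exact h (hl q (by simp))

theorem sub_one_single (v : Fin n → ℝ) (m : ℕ) : (sub 1)^[m] (Finsupp.single [v] 1) = Finsupp.single [v] 1 := by
  have h : sub 1 (Finsupp.single [v] (1 : ZMod 2)) = Finsupp.single [v] 1 := by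
    rw [Pool.Agent.Helper133.BU.sub_succ_single, one_smul]
    simp [bdL, sub, Pool.Agent.Helper133.BU.bary, Pool.Agent.Helper133.BU.cone_single]
  induction m with
  | zero => rfl
  | succ m ih => rw [Function.iterate_succ_apply, h, ih]

theorem ev_edge_zero [Nonempty (Fin n)] {p q : Fin n} {u v : Fin n} (hA : p ∉ ({u, v} : Finset (Fin n)) ∨
    q ∉ ({u, v} : Finset (Fin n))) (m : ℕ) :
    evl (AS.pb sx (wpq p q)) ((sub 2)^[m] (Finsupp.single [E u, E v] 1)) = 0 := by
  have h := iter_good (A := {u, v}) [u, v] (by simp) m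
  rw [← evl_zero ((sub 2)^[m] (Finsupp.single [E u, E v] 1))]
  refine evl_congr _ (fun l hl => ?_) h
  refine wpq_zero hA _ (fun i hi => ?_)
  obtain ⟨x, hx, rfl⟩ := List.mem_map.1 hi
  exact sx_mem (hl.2.1 x hx)

theorem ev_edge_one [Nonempty (Fin n)] {p q : Fin n} (hpq : p ≠ q) (m : ℕ) :
    evl (AS.pb sx (wpq p q)) ((sub 2)^[m] (Finsupp.single [E p, E q] 1)) = 1 := by
  have h := iter_good (A := {p, q}) [p, q] (by simp) m
  have h1 : evl (AS.pb sx (wpq p q)) ((sub 2)^[m] (Finsupp.single [E p, E q] 1)) =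
      evl (AS.d (AS.pb sx (onep p))) ((sub 2)^[m] (Finsupp.single [E p, E q] 1)) := by
    refine evl_congr _ (fun l hl => ?_) h
    rw [AS.d_pb]
    refine wpq_two hpq _ (by rw [List.length_map]; exact hl.1) (fun i hi => ?_)
    obtain ⟨x, hx, rfl⟩ := List.mem_map.1 hi
    exact sx_mem (hl.2.1 x hx)
  rw [h1, evl_d, Pool.Agent.Helper133.BU.bd_iter, Pool.Agent.Helper133.BU.bd_single, one_smul]
  have h2 : bdL [E p, E q] = (Finsupp.single [E q] 1 : Chain (Fin n → ℝ)) + Finsupp.single [E p] 1 := by
    simp [bdL, Pool.Agent.Helper133.BU.cone_single]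
  rw [h2, Pool.Agent.Helper133.BU.add_iter, sub_one_single, sub_one_single, map_add, evl_single, evl_single]
  simp [AS.pb, sx_E, onep, hpq.symm]

theorem sort_pair {p q : Fin n} (h : p < q) : ({p, q} : Finset (Fin n)).sort (· ≤ ·) = [p, q] := by
  have h1 : [p, q].toFinset = ({p, q} : Finset (Fin n)) := by simp
  rw [← h1]
  apply (List.toFinset_sort (· ≤ ·) _).2
  · simp [h.le]
  · simp [h.ne]

end real

/-- Module INJ -/
theorem _root_.Pool.Agent.L0h72.LC.t_INJ : S_INJ := by
  intro n K hK hV z hz
  rcases isEmpty_or_nonempty (Fin n) with hn | hn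
  · refine ⟨0, fun A _ hA => ?_⟩
    have : A = ∅ := Finset.eq_empty_of_isEmpty A
    rw [this] at hA
    simp at hA
  have hnp : (0 : ℝ) < 1 / n := by have := n_pos (n := n); positivity
  -- the Alexander-Spanier cocycle
  have hc : AS.Coc (realization K) 3 (AS.pb sx (zt z)) := by
    refine ⟨1 / n, hnp, fun l hl hs => ?_⟩
    rw [AS.d_pb]
    refine zt_coc z hz _ (by rw [List.length_map]; exact hl) ?_
    obtain ⟨y, hy⟩ : ∃ y, y ∈ l := by
      match l, hl with
      | y :: _, _ => exact ⟨y, by simp⟩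
    obtain ⟨σ, hσ, h2⟩ := (hs.1 y hy).2.2
    refine hK.2 σ hσ _ (fun i hi => ?_)
    rw [List.mem_toFinset, List.mem_map] at hi
    obtain ⟨x, hx, rfl⟩ := hi
    by_contra hcon
    exact close x y (hs.1 x hx).2.1 (hs.2 x hx y hy) (h2 _ hcon)
  obtain ⟨b, ε, hε, hb⟩ := hV _ hc
  obtain ⟨m, hm⟩ := exists_pow_lt_of_lt_one hε (show (3 / 4 : ℝ) < 1 by norm_num)
  refine ⟨fun e => evl b ((sub 2)^[m] (Finsupp.single ((e.sort (· ≤ ·)).map E) 1)), fun A hA hcard => ?_⟩
  obtain ⟨p, q, r, hpq, hqr, rfl⟩ : ∃ p q r : Fin n, p < q ∧ q < r ∧ A = {p, q, r} := by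
    have h1 : (A.sort (· ≤ ·)).length = 3 := by rw [Finset.length_sort, hcard]
    have h2 := A.sortedLT_sort
    have h3 : (A.sort (· ≤ ·)).toFinset = A := Finset.sort_toFinset A _
    match hs : A.sort (· ≤ ·), h1 with
    | [p, q, r], _ =>
      rw [hs] at h2 h3
      refine ⟨p, q, r, ?_, ?_, ?_⟩
      · have := h2.pairwise
        simp only [List.pairwise_cons, List.mem_cons] at this
        exact this.1 q (Or.inl rfl)
      · have := h2.pairwise
        simp only [List.pairwise_cons, List.mem_cons] at this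
        exact this.2.1 r (Or.inl rfl)
      · rw [← h3]; simp
  have hpr : p < r := hpq.trans hqr
  rw [sum_face _ _ 2 hcard, Finset.sum_insert (by simp [hpq.ne, hpr.ne]), Finset.sum_insert (by simp [hqr.ne]),
    Finset.sum_singleton]
  have e1 : ({p, q, r} : Finset (Fin n)).erase p = {q, r} := by
    rw [Finset.erase_insert (by simp [hpq.ne, hpr.ne])]
  have e2 : ({p, q, r} : Finset (Fin n)).erase q = {p, r} := by
    ext i; simp only [Finset.mem_erase, Finset.mem_insert, Finset.mem_singleton]; grind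
  have e3 : ({p, q, r} : Finset (Fin n)).erase r = {p, q} := by
    ext i; simp only [Finset.mem_erase, Finset.mem_insert, Finset.mem_singleton]; grind
  rw [e1, e2, e3, sort_pair hqr, sort_pair hpr, sort_pair hpq]
  set C : Chain (Fin n → ℝ) := (sub 3)^[m] (Finsupp.single ([p, q, r].map E) 1) with hC
  have hgood := iter_good (A := {p, q, r}) [p, q, r] (by simp) m
  have hbdC : bd C = (sub 2)^[m] (Finsupp.single ([q, r].map E) 1) + (sub 2)^[m] (Finsupp.single ([p, r].map E) 1) +
      (sub 2)^[m] (Finsupp.single ([p, q].map E) 1) := by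
    rw [hC, Pool.Agent.Helper133.BU.bd_iter, Pool.Agent.Helper133.BU.bd_single, one_smul]
    have h2 : bdL ([p, q, r].map E) = (Finsupp.single ([q, r].map E) 1 : Chain (Fin n → ℝ)) +
        Finsupp.single ([p, r].map E) 1 + Finsupp.single ([p, q].map E) 1 := by
      simp [bdL, Pool.Agent.Helper133.BU.cone_single, add_assoc]
    rw [h2, Pool.Agent.Helper133.BU.add_iter, Pool.Agent.Helper133.BU.add_iter]
  have h1 : evl (AS.d b) C = evl (AS.pb sx (zt z)) C := by
    refine evl_congr _ (fun l hl => ?_) hgood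
    have h2 := hb l hl.1 ⟨fun x hx => Cx_real hA (hl.2.1 x hx), fun x hx y hy => ?_⟩
    · rw [Pi.sub_apply, sub_eq_zero] at h2
      exact h2.symm
    · rw [dist_eq_norm]
      refine (hl.2.2 x hx y hy).trans_lt ?_
      have : (([p, q, r].length : ℝ) / (([p, q, r].length : ℝ) + 1)) ^ m * 1 = (3 / 4 : ℝ) ^ m := by
        simp only [List.length_cons, List.length_nil]
        norm_num
      rw [this]
      exact hm
  have h2 : evl (AS.pb sx (zt z)) C = z {p, q, r} * evl (AS.d (AS.pb sx (wpq p q))) C := by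
    rw [← evl_smul]
    refine evl_congr _ (fun l hl => ?_) hgood
    rw [AS.d_pb]
    refine zt_eq z hpq.ne hpr.ne hqr.ne (l.map sx) (by rw [List.length_map]; exact hl.1) (fun i hi => ?_)
    obtain ⟨x, hx, rfl⟩ := List.mem_map.1 hi
    exact sx_mem (hl.2.1 x hx)
  have h3 : evl (AS.d (AS.pb sx (wpq p q))) C = 1 := by
    rw [evl_d, hbdC, map_add, map_add]
    have k1 := ev_edge_zero (p := p) (q := q) (u := q) (v := r) (Or.inl (by simp [hpq.ne, hpr.ne])) m
    have k2 := ev_edge_zero (p := p) (q := q) (u := p) (v := r) (Or.inr (by simp [hpq.ne', hqr.ne])) m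
    have k3 := ev_edge_one hpq.ne m
    simp only [List.map_cons, List.map_nil]
    rw [k1, k2, k3]
    ring
  have h4 : evl b (bd C) = z {p, q, r} := by
    rw [← evl_d, h1, h2, h3, mul_one]
  rw [← h4, hbdC, map_add, map_add, add_assoc]

end Pool.Agent.L0h72.LC.Inj
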