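import Mathlib
import Pool.Agent.L0h44.LC.Stm2

set_option autoImplicit false

/-!
# Project LC, module PI2: if all homomorphisms on the fundamental group are trivial, then so are all flat labellings
-/

namespace Pool.Agent.L0h72.LC

open Finset Pool.Agent.H933R3 Pool.Agent.L0h44.LC Topology

section cover

variable {n : ℕ} {D : Finset (Finset (Fin n))} {H : Type} [Group H] {ρ : Fin n → Fin n → H}

theorem exists_ne (y : realization D) : ∃ i, y.1 i ≠ 0 := by
  by_contra h
  push Not at h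
  have := y.2.2.1
  simp [h] at this

/-- a vertex of the carrier of `y` -/
noncomputable def idx (y : realization D) : Fin n := (exists_ne y).choose

theorem idx_spec (y : realization D) : y.1 (idx y) ≠ 0 := (exists_ne y).choose_spec

theorem supp_mem (hD : IsCx D) (y : realization D) (s : Finset (Fin n)) (hs : ∀ i ∈ s, y.1 i ≠ 0) : s ∈ D := by
  obtain ⟨σ, hσ, h⟩ := y.2.2.2
  exact hD.2 σ hσ s (fun i hi => by_contra fun hn => hs i hi (h i hn))

theorem flat_mul (hD : IsCx D) (hρ : Flat D ρ) (y : realization D) (i j k : Fin n) (hi : y.1 i ≠ 0) (hj : y.1 j ≠ 0)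
    (hk : y.1 k ≠ 0) : ρ i j * ρ j k = ρ i k := by
  apply hρ
  apply supp_mem hD y
  intro l hl
  simp only [Finset.mem_insert, Finset.mem_singleton] at hl
  rcases hl with rfl | rfl | rfl <;> assumption

theorem flat_self (hD : IsCx D) (hρ : Flat D ρ) (y : realization D) (i : Fin n) (hi : y.1 i ≠ 0) : ρ i i = 1 := by
  have := flat_mul hD hρ y i i i hi hi hi
  exact mul_left_cancel (this.trans (mul_one _).symm)

variable [TopologicalSpace H] [DiscreteTopology H]

/-- the covering space associated with a flat labelling -/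
noncomputable def Z (hD : IsCx D) (hρ : Flat D ρ) : FiberBundleCore (Fin n) (realization D) H where
  baseSet i := {y | y.1 i ≠ 0}
  isOpen_baseSet i := isOpen_ne_fun ((continuous_apply i).comp continuous_subtype_val) continuous_const
  indexAt := idx
  mem_baseSet_at := idx_spec
  coordChange i j _ h := ρ j i * h
  coordChange_self i x hx v := by
    rw [flat_self hD hρ x i hx, one_mul]
  continuousOn_coordChange i j := by
    apply Continuous.continuousOn
    exact (continuous_of_discreteTopology (f := fun h : H => ρ j i * h)).comp continuous_snd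
  coordChange_comp i j k x hx v := by
    rw [← mul_assoc, flat_mul hD hρ x k j i hx.2 hx.1.2 hx.1.1]

theorem cov (hD : IsCx D) (hρ : Flat D ρ) : IsCoveringMap (Z hD hρ).proj :=
  FiberBundle.isCoveringMap (F := H) (E := (Z hD hρ).Fiber)

/-- points of the covering space -/
def mkE (hD : IsCx D) (hρ : Flat D ρ) (y : realization D) (h : H) : (Z hD hρ).TotalSpace := ⟨y, h⟩

/-- the coordinate in the fibre -/
def snd (hD : IsCx D) (hρ : Flat D ρ) (e : (Z hD hρ).TotalSpace) : H := e.2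

/-- right translations -/
def Rt (hD : IsCx D) (hρ : Flat D ρ) (g : H) (e : (Z hD hρ).TotalSpace) : (Z hD hρ).TotalSpace :=
  mkE hD hρ e.1 (snd hD hρ e * g)

theorem Rt_cont (hD : IsCx D) (hρ : Flat D ρ) (g : H) : Continuous (Rt hD hρ g) := by
  rw [continuous_iff_continuousAt]
  intro e
  rw [FiberBundle.continuousAt_totalSpace]
  have hid : ContinuousAt (id : (Z hD hρ).TotalSpace → (Z hD hρ).TotalSpace) e := continuousAt_id
  rw [FiberBundle.continuousAt_totalSpace] at hid
  refine ⟨hid.1, ?_⟩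
  have h2 := (continuous_of_discreteTopology (f := fun h : H => h * g)).continuousAt.comp hid.2
  refine h2.congr (Filter.Eventually.of_forall fun e' => ?_)
  show ρ _ _ * snd hD hρ e' * g = ρ _ _ * (snd hD hρ e' * g)
  exact mul_assoc _ _ _

/-- the point of the fibre over `x` with coordinate `h` -/
def fib (hD : IsCx D) (hρ : Flat D ρ) (x : realization D) (h : H) : (Z hD hρ).proj ⁻¹' {x} :=
  ⟨mkE hD hρ x h, rfl⟩

theorem fib_eta (hD : IsCx D) (hρ : Flat D ρ) (x : realization D) (e : (Z hD hρ).proj ⁻¹' {x}) :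
    e = fib hD hρ x (snd hD hρ e.1) := by
  obtain ⟨⟨y, h⟩, hy⟩ := e
  have : y = x := hy
  subst this
  rfl

/-- the transport -/
noncomputable def T (hD : IsCx D) (hρ : Flat D ρ) {x y : realization D} (γ : Path.Homotopic.Quotient x y) (h : H) : H :=
  snd hD hρ ((cov hD hρ).monodromy γ (fib hD hρ x h)).1

theorem mono_eq (hD : IsCx D) (hρ : Flat D ρ) {x y : realization D} (γ : Path.Homotopic.Quotient x y) (h : H) :
    (cov hD hρ).monodromy γ (fib hD hρ x h) = fib hD hρ y (T hD hρ γ h) := fib_eta _ _ _ _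

theorem snd_fib (hD : IsCx D) (hρ : Flat D ρ) (x : realization D) (h : H) : snd hD hρ (fib hD hρ x h).1 = h := rfl

theorem T_eq (hD : IsCx D) (hρ : Flat D ρ) {x y : realization D} (γ : Path x y) (h a : H) (Γ : C(unitInterval, (Z hD hρ).TotalSpace))
    (h1 : ∀ t, (Γ t).1 = γ t) (h0 : Γ 0 = mkE hD hρ x h) (h2 : Γ 1 = mkE hD hρ y a) :
    T hD hρ (Path.Homotopic.Quotient.mk γ) h = a := by
  have h3 : Γ = (cov hD hρ).liftPath γ (fib hD hρ x h).1 (γ.source.trans (fib hD hρ x h).2.symm) := by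
    rw [(cov hD hρ).eq_liftPath_iff']
    exact ⟨funext h1, h0⟩
  show snd hD hρ ((cov hD hρ).liftPath γ (fib hD hρ x h).1 (γ.source.trans (fib hD hρ x h).2.symm) 1) = a
  rw [← h3, h2]
  rfl

theorem T_mul (hD : IsCx D) (hρ : Flat D ρ) {x y : realization D} (γ : Path.Homotopic.Quotient x y) (h g : H) :
    T hD hρ γ (h * g) = T hD hρ γ h * g := by
  obtain ⟨γ⟩ := γ
  set Γ := (cov hD hρ).liftPath γ (fib hD hρ x h).1 (γ.source.trans (fib hD hρ x h).2.symm) with hΓ
  have hl : ∀ t, (Γ t).1 = γ t := fun t => congr_fun ((cov hD hρ).liftPath_lifts γ (fib hD hρ x h).1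
    (γ.source.trans (fib hD hρ x h).2.symm)) t
  have h0 : Γ 0 = mkE hD hρ x h := (cov hD hρ).liftPath_zero γ (fib hD hρ x h).1
    (γ.source.trans (fib hD hρ x h).2.symm)
  have h2 : Γ 1 = mkE hD hρ y (T hD hρ (Path.Homotopic.Quotient.mk γ) h) := by
    have := congrArg Subtype.val (mono_eq hD hρ (Path.Homotopic.Quotient.mk γ) h)
    exact this
  refine T_eq hD hρ γ (h * g) _ ⟨fun t => Rt hD hρ g (Γ t), (Rt_cont hD hρ g).comp Γ.continuous⟩ (fun t => hl t) ?_ ?_
  · show Rt hD hρ g (Γ 0) = _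
    rw [h0]; rfl
  · show Rt hD hρ g (Γ 1) = _
    rw [h2]; rfl

theorem T_trans (hD : IsCx D) (hρ : Flat D ρ) {x y z : realization D} (γ : Path.Homotopic.Quotient x y)
    (γ' : Path.Homotopic.Quotient y z) : T hD hρ (γ.trans γ') 1 = T hD hρ γ' 1 * T hD hρ γ 1 := by
  have h1 := (cov hD hρ).monodromy_trans_apply γ γ' (fib hD hρ x 1)
  rw [mono_eq, mono_eq, mono_eq] at h1
  have h2 : T hD hρ (γ.trans γ') 1 = T hD hρ γ' (T hD hρ γ 1) := by
    have h3 := congrArg (fun e : (Z hD hρ).proj ⁻¹' {z} => snd hD hρ e.1) h1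
    exact h3
  rw [h2, ← T_mul, one_mul]

theorem T_refl (hD : IsCx D) (hρ : Flat D ρ) (x : realization D) : T hD hρ (Path.Homotopic.Quotient.refl x) 1 = 1 := by
  unfold T
  rw [(cov hD hρ).monodromy_refl]
  rfl

/-- the holonomy homomorphism -/
noncomputable def hol (hD : IsCx D) (hρ : Flat D ρ) (x : realization D) : FundamentalGroup (realization D) x →* H where
  toFun γ := T hD hρ (x := x) (y := x) γ 1
  map_one' := T_refl hD hρ x
  map_mul' γ γ' := T_trans hD hρ γ' γ

theorem T_loop (hD : IsCx D) (hρ : Flat D ρ)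
    (hφ : ∀ (x : realization D) (φ : FundamentalGroup (realization D) x →* H), φ = 1) (x : realization D)
    (γ : Path.Homotopic.Quotient x x) : T hD hρ γ 1 = 1 :=
  DFunLike.congr_fun (hφ x (hol hD hρ x)) γ

theorem T_indep (hD : IsCx D) (hρ : Flat D ρ)
    (hφ : ∀ (x : realization D) (φ : FundamentalGroup (realization D) x →* H), φ = 1) {x y : realization D}
    (γ γ' : Path.Homotopic.Quotient x y) : T hD hρ γ 1 = T hD hρ γ' 1 := by
  have h1 := T_loop hD hρ hφ x (γ.trans γ'.symm)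
  have h2 := T_loop hD hρ hφ x (γ'.trans γ'.symm)
  rw [T_trans] at h1 h2
  exact mul_left_cancel (h1.trans h2.symm)

/-- transport along paths in a star -/
theorem T_star (hD : IsCx D) (hρ : Flat D ρ) {x y : realization D} (γ : Path x y) (v : Fin n)
    (hv : ∀ t, (γ t).1 v ≠ 0) : T hD hρ (Path.Homotopic.Quotient.mk γ) 1 = ρ (idx y) v * ρ v (idx x) := by
  have hx : x.1 v ≠ 0 := by simpa using hv 0
  have hy : y.1 v ≠ 0 := by simpa using hv 1
  have hc : Continuous (fun t : unitInterval => (mkE hD hρ (γ t) (ρ (idx (γ t)) v * ρ v (idx x)))) := by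
    exact ((Z hD hρ).localTriv v).toOpenPartialHomeomorph.continuousOn_symm.comp_continuous
      (f := fun t : unitInterval => ((γ t, ρ v (idx x)) : realization D × H)) (by fun_prop)
      (fun t => ((Z hD hρ).mem_localTriv_target _ _).2 (hv t))
  refine T_eq hD hρ γ 1 _ ⟨_, hc⟩ (fun t => rfl) ?_ ?_
  · show mkE hD hρ (γ 0) (ρ (idx (γ 0)) v * ρ v (idx x)) = _
    rw [γ.source, flat_mul hD hρ x _ _ _ (idx_spec x) hx (idx_spec x), flat_self hD hρ x _ (idx_spec x)]
  · show mkE hD hρ (γ 1) (ρ (idx (γ 1)) v * ρ v (idx x)) = _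
    rw [γ.target]

/-- a point given by nonnegative coordinates with sum 1 -/
def pt (x : Fin n → ℝ) (h0 : ∀ i, 0 ≤ x i) (h1 : ∑ i, x i = 1) (s : Finset (Fin n)) (hs : s ∈ D)
    (h2 : ∀ i, i ∉ s → x i = 0) : realization D := ⟨x, h0, h1, s, hs, h2⟩

/-- vertices -/
def vx (v : Fin n) (hv : {v} ∈ D) : realization D :=
  ⟨Pi.single v 1, fun i => by
    by_cases h : i = v
    · subst h; simp
    · simp [Pi.single_apply, h], by simp [Finset.sum_pi_single'], {v}, hv, fun i hi => by
      rw [Finset.mem_singleton] at hi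
      simp [Pi.single_apply, hi]⟩

theorem single_sum (v : Fin n) : ∑ i, (Pi.single v 1 : Fin n → ℝ) i = 1 := by simp [Finset.sum_pi_single']

theorem vx_idx (v : Fin n) (hv : {v} ∈ D) : idx (vx v hv) = v := by
  have := idx_spec (vx v hv)
  by_contra h
  apply this
  show (Pi.single v 1 : Fin n → ℝ) _ = 0
  simp [Pi.single_apply, h]

/-- a segment from a vertex -/
theorem seg (y : realization D) (v : Fin n) (hv : {v} ∈ D) (hy : y.1 v ≠ 0) :
    ∃ γ : Path (vx v hv) y, ∀ t, (γ t).1 v ≠ 0 := by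
  have key : ∀ t : unitInterval, (1 - (t : ℝ)) • (Pi.single v 1 : Fin n → ℝ) + (t : ℝ) • y.1 ∈ realization D := by
    intro t
    have ht0 : (0 : ℝ) ≤ t := t.2.1
    have ht1 : (0 : ℝ) ≤ 1 - t := by linarith [t.2.2]
    refine ⟨fun i => ?_, ?_, ?_⟩
    · have h1 := (vx v hv).2.1 i
      have h2 := y.2.1 i
      have h3 : 0 ≤ (1 - (t : ℝ)) * (Pi.single v 1 : Fin n → ℝ) i := mul_nonneg ht1 h1
      have h4 : 0 ≤ (t : ℝ) * y.1 i := mul_nonneg ht0 h2
      simp only [Pi.add_apply, Pi.smul_apply, smul_eq_mul]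
      linarith
    · simp only [Pi.add_apply, Pi.smul_apply, smul_eq_mul, Finset.sum_add_distrib, ← Finset.mul_sum]
      rw [y.2.2.1, single_sum]
      ring
    · obtain ⟨σ, hσ, h⟩ := y.2.2.2
      refine ⟨σ, hσ, fun i hi => ?_⟩
      have h1 : i ≠ v := by
        rintro rfl
        exact hy (h i hi)
      simp [Pi.single_apply, h1, h i hi]
  refine ⟨⟨⟨fun t => ⟨_, key t⟩, ?_⟩, ?_, ?_⟩, ?_⟩
  · apply Continuous.subtype_mk
    fun_prop
  · apply Subtype.ext
    show (1 - ((0 : unitInterval) : ℝ)) • (Pi.single v 1 : Fin n → ℝ) + ((0 : unitInterval) : ℝ) • y.1 = Pi.single v 1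
    simp
  · apply Subtype.ext
    show (1 - ((1 : unitInterval) : ℝ)) • (Pi.single v 1 : Fin n → ℝ) + ((1 : unitInterval) : ℝ) • y.1 = y.1
    simp
  · intro t
    show ((1 - (t : ℝ)) • (Pi.single v 1 : Fin n → ℝ) + (t : ℝ) • y.1) v ≠ 0
    simp only [Pi.add_apply, Pi.smul_apply, smul_eq_mul, Pi.single_eq_same]
    have ht0 : (0 : ℝ) ≤ t := t.2.1
    have ht1 : (t : ℝ) ≤ 1 := t.2.2
    have hy' : 0 < y.1 v := lt_of_le_of_ne (y.2.1 v) (Ne.symm hy)
    rcases eq_or_lt_of_le ht0 with h | h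
    · rw [← h]; norm_num
    · have := mul_pos h hy'
      have h5 : 0 ≤ 1 - (t : ℝ) := by linarith
      positivity

theorem exists_mid (hD : IsCx D) (u v : Fin n) (huv : ({u, v} : Finset (Fin n)) ∈ D) :
    ∃ y : realization D, y.1 u ≠ 0 ∧ y.1 v ≠ 0 := by
  have hu : {u} ∈ D := hD.2 _ huv _ (by simp)
  have hv : {v} ∈ D := hD.2 _ huv _ (by simp)
  refine ⟨⟨(1 / 2 : ℝ) • (Pi.single u 1 : Fin n → ℝ) + (1 / 2 : ℝ) • (Pi.single v 1 : Fin n → ℝ), ?_, ?_, {u, v}, huv, ?_⟩, ?_, ?_⟩
  · intro i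
    have h1 := (vx u hu).2.1 i
    have h2 := (vx v hv).2.1 i
    have h1' : 0 ≤ (Pi.single u 1 : Fin n → ℝ) i := h1
    have h2' : 0 ≤ (Pi.single v 1 : Fin n → ℝ) i := h2
    simp only [Pi.add_apply, Pi.smul_apply, smul_eq_mul]
    linarith
  · simp only [Pi.add_apply, Pi.smul_apply, smul_eq_mul, Finset.sum_add_distrib, ← Finset.mul_sum]
    rw [single_sum, single_sum]
    norm_num
  · intro i hi
    simp only [Finset.mem_insert, Finset.mem_singleton, not_or] at hi
    simp [Pi.single_apply, hi.1, hi.2]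
  · have h2 : 0 ≤ (Pi.single v 1 : Fin n → ℝ) u := (vx v hv).2.1 u
    simp only [Pi.add_apply, Pi.smul_apply, smul_eq_mul, Pi.single_eq_same]
    linarith
  · have h2 : 0 ≤ (Pi.single u 1 : Fin n → ℝ) v := (vx u hu).2.1 v
    simp only [Pi.add_apply, Pi.smul_apply, smul_eq_mul, Pi.single_eq_same]
    linarith

theorem main (hD : IsCx D) (hρ : Flat D ρ) [PathConnectedSpace (realization D)]
    (hφ : ∀ (x : realization D) (φ : FundamentalGroup (realization D) x →* H), φ = 1) : Triv D ρ := by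
  classical
  obtain ⟨x0⟩ : Nonempty (realization D) := inferInstance
  let g0 : realization D → H := fun y => T hD hρ (Path.Homotopic.Quotient.mk (PathConnectedSpace.somePath x0 y)) 1
  have key : ∀ (v : Fin n) (hv : {v} ∈ D) (y : realization D), y.1 v ≠ 0 → g0 y = ρ (idx y) v * g0 (vx v hv) := by
    intro v hv y hy
    obtain ⟨γ, hγ⟩ := seg y v hv hy
    have h1 := T_star hD hρ γ v hγ
    have h2 := T_trans hD hρ (Path.Homotopic.Quotient.mk (PathConnectedSpace.somePath x0 (vx v hv)))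
      (Path.Homotopic.Quotient.mk γ)
    rw [T_indep hD hρ hφ _ (Path.Homotopic.Quotient.mk (PathConnectedSpace.somePath x0 y)), h1] at h2
    rw [vx_idx, flat_self hD hρ y v hy, mul_one] at h2
    exact h2
  refine ⟨fun v => if hv : {v} ∈ D then (g0 (vx v hv))⁻¹ else 1, fun u v huv => ?_⟩
  have hu : {u} ∈ D := hD.2 _ huv _ (by simp)
  have hv : {v} ∈ D := hD.2 _ huv _ (by simp)
  simp only [dif_pos hu, dif_pos hv, inv_inv]
  obtain ⟨y, hyu, hyv⟩ := exists_mid hD u v huv
  have h1 := key u hu y hyu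
  have h2 := key v hv y hyv
  have h3 : ρ u (idx y) * g0 y = g0 (vx u hu) := by
    rw [h1, ← mul_assoc, flat_mul hD hρ y _ _ _ hyu (idx_spec y) hyu, flat_self hD hρ y u hyu, one_mul]
  have h4 : ρ u (idx y) * g0 y = ρ u v * g0 (vx v hv) := by
    rw [h2, ← mul_assoc, flat_mul hD hρ y _ _ _ hyu (idx_spec y) hyv]
  rw [← h3, h4, mul_inv_cancel_right]

end cover

/-- Module PI2 -/
theorem t_PI2 : S_PI2 := by
  intro n D hD hpc H _ hφ ρ hρ
  letI : TopologicalSpace H := ⊥
  haveI : DiscreteTopology H := ⟨rfl⟩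
  haveI := hpc
  exact main hD hρ hφ

end Pool.Agent.L0h72.LC
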